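import Pool.Agent.H.MP_f6c0ac.A

namespace Pool.Agent.H.MP_f6c0ac

open Finset Filter Topology
open scoped Pointwise

variable {X : Type} [NormedAddCommGroup X] [NormedSpace ℝ X]

theorem wlim {L : Set X} (hL : IsCompact (toWeakSpace ℝ X '' L)) {ι : Type} (y : ι → X)
    (U : Ultrafilter ι) (hy : ∀ᶠ j in U, y j ∈ L) :
    ∃ z ∈ L, (∀ φ : X →L[ℝ] ℝ, Tendsto (fun j => φ (y j)) U (𝓝 (φ z))) ∧
      ∀ S, Convex ℝ S → (∀ᶠ j in U, y j ∈ S) → z ∈ closure S := by
  obtain ⟨_, ⟨z, hz, rfl⟩, h⟩ := hL.ultrafilter_le_nhds (U.map fun j => toWeakSpace ℝ X (y j))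
    (by
      rw [le_principal_iff, Ultrafilter.coe_map, Filter.mem_map]
      exact hy.mono fun j hj => ⟨_, hj, rfl⟩)
  have a : ∀ φ : X →L[ℝ] ℝ, Tendsto (fun j => φ (y j)) U (𝓝 (φ z)) := fun φ =>
    ((WeakBilin.eval_continuous (topDualPairing ℝ X).flip φ).tendsto _).comp h
  refine ⟨z, hz, a, fun S hS h2 => by_contra fun h3 => ?_⟩
  obtain ⟨φ, u, h4, h5⟩ := geometric_hahn_banach_point_closed hS.closure isClosed_closure h3
  exact absurd (ge_of_tendsto (a φ) (h2.mono fun j hj => (h5 _ (subset_closure hj)).le))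
    (not_le.2 h4)

theorem wcomp {K : Set X} (hK : IsCompact K) : IsCompact (toWeakSpace ℝ X '' K) :=
  hK.image (toWeakSpaceCLM ℝ X).continuous

theorem sepK [TopologicalSpace.SeparableSpace X] : ∃ K : Set X, IsCompact K ∧
    ∀ L : Set X, IsCompact L → ∀ ε : ℝ, 0 < ε →
      ∃ n : ℕ, L ⊆ (n : ℝ) • K + Metric.closedBall (0 : X) ε := by
  obtain ⟨d, hd⟩ := TopologicalSpace.exists_dense_seq X
  let r : ℕ → ℝ := fun n => ((n : ℝ) + 1) * (‖d n‖ + 1)
  have hr : ∀ n, 0 < r n := fun n => by positivity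
  have h0 : Tendsto (fun n => (r n)⁻¹ • d n) atTop (𝓝 0) := by
    refine squeeze_zero_norm (fun n => ?_) tendsto_one_div_add_atTop_nhds_zero_nat
    rw [norm_smul, norm_inv, Real.norm_of_nonneg (hr n).le, inv_mul_eq_div,
      div_le_div_iff₀ (hr n) (by positivity)]
    simp only [r]
    nlinarith [norm_nonneg (d n), (by positivity : (0 : ℝ) < (n : ℝ) + 1)]
  refine ⟨_, ((isCompact_Icc (a := (0 : ℝ)) (b := 1)).prod h0.isCompact_insert_range).image
    continuous_smul, fun L hL ε hε => ?_⟩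
  obtain ⟨t, ht⟩ := hL.elim_finite_subcover (fun n => Metric.ball (d n) ε)
    (fun _ => Metric.isOpen_ball) fun v _ => by
      obtain ⟨n, hn⟩ := hd.exists_dist_lt v hε
      exact Set.mem_iUnion.2 ⟨n, hn⟩
  obtain ⟨N, hN⟩ := exists_nat_gt (∑ n ∈ t, r n)
  have hN0 : (0 : ℝ) < N := (sum_nonneg fun n _ => (hr n).le).trans_lt hN
  refine ⟨N, fun v hv => ?_⟩
  obtain ⟨n, hn, h⟩ := Set.mem_iUnion₂.1 (ht hv)
  have h1 : r n ≤ N := (single_le_sum (fun n _ => (hr n).le) hn).trans hN.le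
  refine ⟨d n, ⟨_, ⟨(r n / N, (r n)⁻¹ • d n), ⟨⟨div_nonneg (hr n).le hN0.le,
    (div_le_one hN0).2 h1⟩, Or.inr ⟨n, rfl⟩⟩, rfl⟩, ?_⟩, v - d n, ?_, by simp⟩
  · have := (hr n).ne'
    simp only [smul_smul]
    rw [show (N : ℝ) * (r n / N * (r n)⁻¹) = 1 by field_simp, one_smul]
  · simpa [dist_eq_norm] using (Metric.mem_ball.1 h).le

noncomputable def B (M : ℕ) : Finset I := (List.finite_length_lt Bool M).toFinset

theorem mem_B {M : ℕ} {i : I} : i ∈ B M ↔ i.length < M := by simp [B]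

variable (x : I → X) (ev : (I →₀ ℝ) →ₗ[ℝ] (X →L[ℝ] ℝ))

theorem ev_eq {w : I →₀ ℝ} {M : ℕ} (h : ∀ i, w i ≠ 0 → i.length < M) (v : X) :
    ev w v = ∑ i ∈ B M, w i * ev (Finsupp.single i 1) v := by
  have : w = ∑ i ∈ B M, w i • Finsupp.single i 1 := by
    ext k
    simp only [Finsupp.coe_finsetSum, Finset.sum_apply, Finsupp.smul_apply, Finsupp.single_apply,
      smul_eq_mul, mul_ite, mul_one, mul_zero, sum_ite_eq', mem_B]
    split_ifs with a
    · rfl
    · exact by_contra fun b => a (h k b)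
  conv_lhs => rw [this]
  simp only [map_sum, map_smul, _root_.sum_apply, _root_.smul_apply, smul_eq_mul]

theorem exM (w : I →₀ ℝ) : ∃ M, ∀ i, w i ≠ 0 → i.length < M :=
  ⟨w.support.sup List.length + 1, fun _ hi =>
    Nat.lt_succ_of_le (le_sup (f := List.length) (Finsupp.mem_support_iff.2 hi))⟩

noncomputable def P (M : ℕ) (v : X) : X := ∑ i ∈ B M, ev (Finsupp.single i 1) v • x i

variable {x ev} (h1 : ∀ w i, ev w (x i) = w i)
  (h2 : Dense (Submodule.span ℝ (Set.range x) : Set X))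
  (h3 : ∀ v r, 0 ≤ r → (‖v‖ ≤ r ↔ ∀ w, Ad w → |ev w v| ≤ r))

include h3 in
theorem ev_le {w : I →₀ ℝ} (hw : Ad w) (v : X) : |ev w v| ≤ ‖v‖ :=
  (h3 v _ (norm_nonneg v)).1 le_rfl w hw

include h3 in
theorem total {v : X} (h : ∀ i, ev (Finsupp.single i 1) v = 0) : v = 0 := by
  refine norm_le_zero_iff.1 ((h3 v 0 le_rfl).2 fun w _ => ?_)
  obtain ⟨M, hM⟩ := exM w
  simp [ev_eq ev hM, h]

include h1 h2 h3 in
theorem tail (v : X) {ε : ℝ} (hε : 0 < ε) :
    ∃ l, ∀ w, Ad w → (∀ i, w i ≠ 0 → l ≤ i.length) → |ev w v| ≤ ε := by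
  obtain ⟨z, hz, h⟩ := h2.exists_dist_lt v hε
  have : ∃ l, ∀ w : I →₀ ℝ, (∀ i, w i ≠ 0 → l ≤ i.length) → ev w z = 0 := by
    clear h
    induction hz using Submodule.span_induction with
    | mem _ h =>
      obtain ⟨i, rfl⟩ := h
      exact ⟨i.length + 1, fun w hw => by
        rw [h1]
        exact by_contra fun a => by simpa using hw i a⟩
    | zero => exact ⟨0, fun w _ => map_zero _⟩
    | add a b _ _ ha hb =>
      obtain ⟨l, ha⟩ := ha
      obtain ⟨l', hb⟩ := hb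
      exact ⟨max l l', fun w hw => by
        rw [map_add, ha w fun i hi => (le_max_left _ _).trans (hw i hi),
          hb w fun i hi => (le_max_right _ _).trans (hw i hi), add_zero]⟩
    | smul t a _ ha =>
      obtain ⟨l, ha⟩ := ha
      exact ⟨l, fun w hw => by rw [map_smul, ha w hw, smul_zero]⟩
  obtain ⟨l, hl⟩ := this
  refine ⟨l, fun w hw a => ?_⟩
  have := ev_le h3 hw (v - z)
  rw [map_sub, hl w a, sub_zero, ← dist_eq_norm] at this
  exact this.trans h.le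

include h1 h3 in
theorem big {v : X} {M : ℕ} {ε : ℝ} (hε : 0 < ε) (h : ε < ‖v - P x ev M v‖) :
    ∃ g c, Ad g ∧ cone c M g ∧ ε / 2 < ev g v := by
  by_contra hn
  push Not at hn
  have e : ∀ w : I →₀ ℝ, ev w (P x ev M v) = ∑ i ∈ B M, w i * ev (Finsupp.single i 1) v :=
    fun w => by simp [P, h1, mul_comm]
  let φ : (I →₀ ℝ) →ₗ[ℝ] ℝ :=
    { toFun := fun w => ev w (v - P x ev M v)
      map_add' := fun a b => by simp
      map_smul' := fun a b => by simp }
  refine absurd ((h3 _ ε hε.le).2 fun w hw => ?_) (not_le.2 h)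
  have := key φ M (ε / 2) (by linarith) (fun g hg => ?_) (fun g c a b => ?_) hw
  · exact this.trans (by linarith)
  · show ev g _ = 0
    rw [map_sub, e, ev_eq ev hg, sub_self]
  · show |ev g _| ≤ _
    rw [map_sub, e, sum_eq_zero fun i hi => ?_, sub_zero, abs_le]
    · have := hn (-g) c a.neg fun i hi => b i (by simpa using hi)
      rw [map_neg, _root_.neg_apply] at this
      exact ⟨by linarith, hn g c a b⟩
    · rw [show g i = 0 from by_contra fun k => absurd (mem_B.1 hi) (not_lt.2 (b i k).1), zero_mul]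

end Pool.Agent.H.MP_f6c0ac
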