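import Pool.Agent.Lib.helper22.SeqSpace

namespace Pool.Agent.H.MP_f6c0ac

open Finset Filter Topology

abbrev I := List Bool

def cone (c : ℕ → Bool) (l : ℕ) (h : I →₀ ℝ) : Prop :=
  ∀ i, h i ≠ 0 → l ≤ i.length ∧ ∀ j < l, i.getD j false = c j

inductive Ad : (I →₀ ℝ) → Prop
  | base (i : I) (s : ℝ) : |s| ≤ 1 → Ad (Finsupp.single i s)
  | cons (g h : I →₀ ℝ) (l : ℕ) (c : ℕ → Bool) : Ad g → Ad h → (∀ i, g i ≠ 0 → i.length < l) →
      cone c l h → Ad ((1 / 2 : ℝ) • g + h)

theorem cone.mono {c : ℕ → Bool} {l l' : ℕ} {h : I →₀ ℝ} (H : cone c l' h) (hl : l ≤ l') :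
    cone c l h := fun i hi => ⟨hl.trans (H i hi).1, fun j hj => (H i hi).2 j (hj.trans_le hl)⟩

theorem Ad.bd {g : I →₀ ℝ} (H : Ad g) : ∀ i, |g i| ≤ 1 := by
  induction H with
  | base i s hs =>
    intro k
    rw [Finsupp.single_apply]
    split_ifs
    · exact hs
    · simp
  | cons g h l c _ _ h1 h2 ih1 ih2 =>
    intro i
    by_cases hi : g i = 0
    · simpa [hi] using ih2 i
    · have : h i = 0 := by
        by_contra h3
        exact absurd (h1 i hi) (not_lt.2 (h2 i h3).1)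
      have := ih1 i
      simp only [Finsupp.add_apply, Finsupp.smul_apply, smul_eq_mul, *, add_zero, abs_mul]
      rw [abs_of_pos (by norm_num : (0 : ℝ) < 1 / 2)]
      linarith [abs_nonneg (g i)]

theorem Ad.neg {g : I →₀ ℝ} (H : Ad g) : Ad (-g) := by
  induction H with
  | base i s hs =>
    rw [← Finsupp.single_neg]
    exact .base i _ (by simpa using hs)
  | cons g h l c _ _ h1 h2 ih1 ih2 =>
    rw [neg_add, ← smul_neg]
    exact .cons _ _ l c ih1 ih2 (fun i hi => h1 i (by simpa using hi))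
      fun i hi => h2 i (by simpa using hi)

theorem Ad.zero : Ad 0 := by
  simpa using Ad.base [] 0 (by simp)

theorem key (φ : (I →₀ ℝ) →ₗ[ℝ] ℝ) (M : ℕ) (C : ℝ) (hC : 0 ≤ C)
    (h0 : ∀ g : I →₀ ℝ, (∀ i, g i ≠ 0 → i.length < M) → φ g = 0)
    (h1 : ∀ g c, Ad g → cone c M g → |φ g| ≤ C) {g : I →₀ ℝ} (H : Ad g) : |φ g| ≤ 2 * C := by
  induction H with
  | base i s hs =>
    rcases lt_or_ge i.length M with h | h
    · rw [h0 _ fun k hk => by
        rwa [show k = i from by_contra fun e => hk (Finsupp.single_eq_of_ne e)]]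
      simpa using hC
    · refine (h1 _ (fun j => i.getD j false) (.base i s hs) fun k hk => ?_).trans (by linarith)
      rw [show k = i from by_contra fun e => hk (Finsupp.single_eq_of_ne e)]
      exact ⟨h, fun _ _ => rfl⟩
  | cons g h l c a b h2 h3 ih1 ih2 =>
    rw [map_add, map_smul, smul_eq_mul]
    rcases le_total l M with e | e
    · rw [h0 g fun i hi => (h2 i hi).trans_le e]
      simpa using ih2
    · have := h1 h c b (h3.mono e)
      rw [abs_le] at *
      constructor <;> linarith [ih1.1, ih1.2, this.1, this.2]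

theorem chain (g : ℕ → I →₀ ℝ) (l : ℕ → ℕ) (c : ℕ → Bool) (hl : Monotone l) (h1 : ∀ j, Ad (g j))
    (h2 : ∀ j, cone c (l j) (g j)) (h3 : ∀ j i, g j i ≠ 0 → i.length < l (j + 1)) (r : ℕ) :
    ∀ k, Ad (∑ j ∈ range r, (1 / 2 : ℝ) • g (k + j)) ∧
      cone c (l k) (∑ j ∈ range r, (1 / 2 : ℝ) • g (k + j)) := by
  induction r with
  | zero => exact fun k => ⟨by simpa using Ad.zero, fun i hi => by simp at hi⟩
  | succ r ih =>
    intro k
    have e : ∑ j ∈ range (r + 1), (1 / 2 : ℝ) • g (k + j) =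
        (1 / 2 : ℝ) • g k + ∑ j ∈ range r, (1 / 2 : ℝ) • g (k + 1 + j) := by
      rw [sum_range_succ', add_comm]
      simp only [add_zero, add_assoc, add_comm 1]
    rw [e]
    refine ⟨.cons _ _ (l (k + 1)) c (h1 k) (ih _).1 (h3 k) (ih _).2, fun i hi => ?_⟩
    by_cases a : g k i = 0
    · refine ((ih (k + 1)).2.mono (hl (Nat.le_succ k))) i ?_
      simpa [a] using hi
    · exact h2 k i a

theorem exX : ∃ (X : Type) (_ : NormedAddCommGroup X) (_ : NormedSpace ℝ X) (_ : CompleteSpace X)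
    (x : I → X) (ev : (I →₀ ℝ) →ₗ[ℝ] (X →L[ℝ] ℝ)), (∀ w i, ev w (x i) = w i) ∧
      Dense (Submodule.span ℝ (Set.range x) : Set X) ∧
      ∀ v r, 0 ≤ r → (‖v‖ ≤ r ↔ ∀ w, Ad w → |ev w v| ≤ r) := by
  classical
  let T : Lib.helper22.SeqSpace.Tests I :=
    ⟨{w | Ad w}, fun w hw => Ad.bd hw, fun i => Ad.base i 1 (by simp)⟩
  have h : ∀ (w : I →₀ ℝ) v, Finsupp.linearCombination ℝ (Lib.helper22.SeqSpace.f T) w v =
      Finsupp.linearCombination ℝ (fun n => Lib.helper22.SeqSpace.f T n v) w := fun w v => by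
    simp [Finsupp.linearCombination_apply, Finsupp.sum]
  refine ⟨Lib.helper22.SeqSpace.X T, inferInstance, inferInstance, inferInstance,
    Lib.helper22.SeqSpace.x T, Finsupp.linearCombination ℝ (Lib.helper22.SeqSpace.f T),
    fun w i => ?_, Lib.helper22.SeqSpace.dense_x T, fun v r hr => ?_⟩
  · rw [h]
    simp only [Finsupp.linearCombination_apply, Finsupp.sum, Lib.helper22.SeqSpace.f_x,
      smul_eq_mul, mul_ite, mul_one, mul_zero, sum_ite_eq', Finsupp.mem_support_iff]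
    split_ifs with a
    · rfl
    · simpa [eq_comm] using a
  · simp only [h]
    exact Lib.helper22.SeqSpace.norm_iff T v r hr

end Pool.Agent.H.MP_f6c0ac
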