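import Pool.Agent.H.MP_f6c0ac.B

namespace Pool.Agent.H.MP_f6c0ac

open Finset Filter Topology
open scoped Pointwise

variable {X : Type} [NormedAddCommGroup X] [NormedSpace ℝ X]
  {x : I → X} {ev : (I →₀ ℝ) →ₗ[ℝ] (X →L[ℝ] ℝ)} (h1 : ∀ w i, ev w (x i) = w i)
  (h2 : Dense (Submodule.span ℝ (Set.range x) : Set X))
  (h3 : ∀ v r, 0 ≤ r → (‖v‖ ≤ r ↔ ∀ w, Ad w → |ev w v| ≤ r))

include h1 h2 h3

theorem tails {L : Set X} (hL : IsCompact (toWeakSpace ℝ X '' L)) {δ : ℝ} (hδ : 0 < δ) :
    ∃ M, ∀ v ∈ L, ‖v - P x ev M v‖ ≤ 8 * δ := by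
  classical
  by_contra hn
  push Not at hn
  choose y hy hy' using hn
  choose g c hg hc hv using fun M => big h1 h3 (by linarith : 0 < 8 * δ) (hy' M)
  let U := hyperfilter ℕ
  have hU : (U : Filter ℕ) ≤ atTop := Nat.hyperfilter_le_atTop
  obtain ⟨z, -, hz, -⟩ := wlim hL y U (.of_forall hy)
  have hc' : ∀ j, ∃ b, ∀ᶠ M in U, c M j = b := fun j => by
    rcases U.em (fun M => c M j = true) with h | h
    · exact ⟨_, h⟩
    · exact ⟨false, h.mono fun M hM => by simpa using hM⟩
  choose u hu using hc'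
  obtain ⟨l₀, hl₀⟩ := tail h1 h2 h3 z hδ
  have step : ∀ l : ℕ, ∃ M l' : ℕ, l < l' ∧ cone u l (g M) ∧ (∀ i, g M i ≠ 0 → i.length < l') ∧
      ∑ i ∈ B l, |ev (Finsupp.single i 1) (y M - z)| ≤ δ / 4 / (l + 1) ∧
      3 * δ ≤ ev (g M) (y M - z) ∧
      ∀ w, Ad w → (∀ i, w i ≠ 0 → l' ≤ i.length) → |ev w (y M - z)| ≤ δ / 4 := fun l => by
    have a : Tendsto (fun M => ∑ i ∈ B l, |ev (Finsupp.single i 1) (y M - z)|) U
        (𝓝 (∑ i ∈ B l, |ev (Finsupp.single i 1) z - ev (Finsupp.single i 1) z|)) :=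
      tendsto_finset_sum _ fun i _ => by
        simp only [map_sub]
        exact ((hz _).sub_const _).abs
    simp only [sub_self, abs_zero, sum_const_zero] at a
    obtain ⟨M, b1, b2, b3⟩ := ((a.eventually_le_const (by positivity : 0 < δ / 4 / (l + 1))).and
      (((eventually_all_finset (range l)).2 fun j _ => hu j).and
        (hU (eventually_ge_atTop (max l l₀))))).exists
    obtain ⟨l1, hl1⟩ := exM (g M)
    obtain ⟨l2, hl2⟩ := tail h1 h2 h3 (y M - z) (by positivity : 0 < δ / 4)
    have b4 : max l l₀ ≤ M := b3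
    refine ⟨M, max (l + 1) (max l1 l2), by omega, fun i hi => ⟨?_, fun j hj => ?_⟩,
      fun i hi => by have := hl1 i hi; omega, b1, ?_,
      fun w hw h => hl2 w hw fun i hi => by have := h i hi; omega⟩
    · have := (hc M i hi).1
      omega
    · rw [(hc M i hi).2 j (by omega), b2 j (mem_range.2 hj)]
    · have := hl₀ (g M) (hg M) fun i hi => by
        have := (hc M i hi).1
        omega
      have := hv M
      rw [map_sub]
      linarith [le_abs_self (ev (g M) z)]
  choose M nx s1 s2 s3 s4 s5 s6 using step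
  let l : ℕ → ℕ := fun j => Nat.rec (motive := fun _ => ℕ) 0 (fun _ a => nx a) j
  have hl : StrictMono l := strictMono_nat_of_lt_succ fun j => s1 (l j)
  have ch := chain (fun j => g (M (l j))) l u hl.monotone (fun j => hg _) (fun j => s2 _)
    fun j => s3 (l j)
  obtain ⟨z', -, hz1, hz2⟩ := wlim hL (fun j => y (M (l j))) U (.of_forall fun _ => hy _)
  have e : z' = z := by
    refine sub_eq_zero.1 (total h3 fun i => ?_)
    have a : Tendsto (fun j => ev (Finsupp.single i 1) (y (M (l j)) - z)) U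
        (𝓝 (ev (Finsupp.single i 1) (z' - z))) := by
      simp only [map_sub]
      exact (hz1 _).sub_const _
    refine tendsto_nhds_unique a (Tendsto.mono_left ?_ hU)
    refine squeeze_zero_norm' ?_ (tendsto_const_div_atTop_nhds_zero_nat (δ / 4))
    filter_upwards [eventually_gt_atTop i.length] with j hj
    have b := hl.le_apply (x := j)
    refine ((single_le_sum (f := fun i => |ev (Finsupp.single i 1) (y (M (l j)) - z)|)
      (fun _ _ => abs_nonneg _) (mem_B.2 (hj.trans_le b))).trans (s4 _)).trans ?_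
    have : (0 : ℝ) < j := by exact_mod_cast (Nat.zero_le _).trans_lt hj
    have : (j : ℝ) ≤ l j := by exact_mod_cast b
    gcongr
    linarith
  let F : ℕ → ℕ → I →₀ ℝ := fun k r => ∑ j ∈ range r, (1 / 2 : ℝ) • g (M (l (k + j)))
  have k := hz2 {v | ∀ᶠ r in atTop, δ + ev (F 0 r) z ≤ ev (F 0 r) v} ?_ (.of_forall fun j => ?_)
  · have : z' ∈ {v | δ ≤ ‖v - z‖} := by
      refine closure_minimal (fun v hv => ?_) (isClosed_le continuous_const (by fun_prop)) k
      obtain ⟨r, hr⟩ := Eventually.exists hv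
      have := ev_le h3 (ch r 0).1 (v - z)
      rw [map_sub] at this
      show δ ≤ _
      linarith [le_abs_self (ev (F 0 r) v - ev (F 0 r) z)]
    rw [e] at this
    simp only [Set.mem_ofPred_eq, sub_self, norm_zero] at this
    linarith
  · intro v hv w hw a b ha hb hab
    filter_upwards [hv, hw] with r p q
    rw [map_add, map_smul, map_smul, smul_eq_mul, smul_eq_mul]
    have := mul_le_mul_of_nonneg_left p ha
    have := mul_le_mul_of_nonneg_left q hb
    have : a * (δ + ev (F 0 r) z) + b * (δ + ev (F 0 r) z) = δ + ev (F 0 r) z := by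
      rw [← add_mul, hab, one_mul]
    linarith
  · filter_upwards [eventually_ge_atTop (j + 1)] with r hr
    obtain ⟨t, rfl⟩ := Nat.exists_eq_add_of_le hr
    have e1 : F 0 (j + 1 + t) = F 0 j + (1 / 2 : ℝ) • g (M (l j)) + F (j + 1) t := by
      simp only [F, sum_range_add, zero_add, range_one, sum_singleton, add_zero]
    have a1 := s6 (l j) _ (ch t (j + 1)).1 fun i hi => ((ch t (j + 1)).2 i hi).1
    have a2 : |ev (F 0 j) (y (M (l j)) - z)| ≤ δ / 4 := by
      rw [ev_eq ev (M := l j) fun i hi => ?_]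
      · refine (abs_sum_le_sum_abs _ _).trans ((sum_le_sum fun i _ => ?_).trans
          ((s4 (l j)).trans (div_le_self (by positivity) (by simp))))
        rw [abs_mul]
        exact mul_le_of_le_one_left (abs_nonneg _) ((ch j 0).1.bd i)
      · simp only [F, Finsupp.coe_finsetSum, Finset.sum_apply] at hi
        obtain ⟨k, hk, b⟩ := exists_ne_zero_of_sum_ne_zero hi
        have b' : g (M (l k)) i ≠ 0 := fun b' => b (by simp [b'])
        exact (s3 _ i b').trans_le (hl.monotone (Nat.succ_le_of_lt (mem_range.1 hk)))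
    have a3 := s5 (l j)
    have : ev (F 0 (j + 1 + t)) (y (M (l j)) - z) = ev (F 0 j) (y (M (l j)) - z) +
        1 / 2 * ev (g (M (l j))) (y (M (l j)) - z) + ev (F (j + 1) t) (y (M (l j)) - z) := by
      rw [e1, map_add, map_add, map_smul]
      rfl
    rw [map_sub] at this
    have := abs_le.1 a1
    have := abs_le.1 a2
    show δ + _ ≤ _
    linarith

theorem schur {L : Set X} (hL : IsCompact (toWeakSpace ℝ X '' L)) : IsCompact L := by
  refine isCompact_iff_ultrafilter_le_nhds.2 fun U hU => ?_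
  obtain ⟨z, hz, h, -⟩ := wlim hL id U (le_principal_iff.1 hU)
  refine ⟨z, hz, Metric.tendsto_nhds.2 fun ε hε => ?_⟩
  obtain ⟨M, hM⟩ := tails h1 h2 h3 hL (by positivity : 0 < ε / 24)
  have a : Tendsto (P x ev M) U (𝓝 (P x ev M z)) :=
    tendsto_finset_sum _ fun i _ => (h _).smul_const _
  filter_upwards [Metric.tendsto_nhds.1 a (ε / 3) (by positivity), le_principal_iff.1 hU]
    with v p q
  have := hM v q
  have := hM z hz
  have := dist_triangle4 v (P x ev M v) (P x ev M z) z
  rw [dist_comm (P x ev M z) z] at this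
  simp only [dist_eq_norm, id] at *
  linarith

theorem swcg : ∃ K : Set X, IsCompact (toWeakSpace ℝ X '' K) ∧
    ∀ L : Set X, IsCompact (toWeakSpace ℝ X '' L) → ∀ ε : ℝ, 0 < ε →
      ∃ n : ℕ, L ⊆ (n : ℝ) • K + Metric.closedBall (0 : X) ε := by
  have : TopologicalSpace.SeparableSpace X :=
    h2.isSeparable_iff.1 (Set.countable_range x).isSeparable.span
  obtain ⟨K, a, b⟩ := sepK (X := X)
  exact ⟨K, wcomp a, fun L hL => b L (schur h1 h2 h3 hL)⟩

end Pool.Agent.H.MP_f6c0ac
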