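import Pool.Agent.H.MP_f6c0ac.C

namespace Pool.Agent.H.MP_f6c0ac

open Finset Filter Topology MeasureTheory
open scoped Pointwise

variable {X : Type} [NormedAddCommGroup X] [NormedSpace ℝ X]

theorem escape (g : ℕ → X) (hg : ∀ (r : ℕ) (a s : ℕ → ℝ), (∀ j, |s j| ≤ 1) →
      1 / 2 * ∑ j ∈ range r, s j * a j ≤ ‖∑ j ∈ range r, a j • g j‖) {K : Set X}
    (hK : IsCompact (toWeakSpace ℝ X '' K)) (n N : ℕ) :
    ∃ m, N ≤ m ∧ g m ∉ (n : ℝ) • K + Metric.closedBall (0 : X) (1 / 4) := by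
  classical
  by_contra hn
  push Not at hn
  have : ∀ m, ∃ v, N ≤ m → v ∈ K ∧ ‖g m - (n : ℝ) • v‖ ≤ 1 / 4 := fun m => by
    by_cases h : N ≤ m
    · obtain ⟨_, ⟨v, hv, rfl⟩, b, hb, e⟩ := hn m h
      exact ⟨v, fun _ => ⟨hv, by rw [← e]; simpa using hb⟩⟩
    · exact ⟨0, fun h' => absurd h' h⟩
  choose κ hκ using this
  have hU : (hyperfilter ℕ : Filter ℕ) ≤ atTop := Nat.hyperfilter_le_atTop
  obtain ⟨z, -, -, hz⟩ := wlim hK κ (hyperfilter ℕ)
    (mem_of_superset (hU (eventually_ge_atTop N)) fun m hm => (hκ m hm).1)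
  have key : ∀ N' : ℕ, ∃ v, dist z v < 1 / 4 / (n + 1) ∧ ∃ a : ℕ → ℝ, (∀ j < N', a j = 0) ∧
      ∀ᶠ r in atTop, a r = 0 ∧ ∑ j ∈ range r, a j = 1 ∧
        ‖∑ j ∈ range r, a j • g j - (n : ℝ) • v‖ ≤ 1 / 4 := fun N' => by
    refine (Metric.mem_closure_iff.1 (hz {v | ∃ a : ℕ → ℝ, (∀ j < N', a j = 0) ∧
      ∀ᶠ r in atTop, a r = 0 ∧ ∑ j ∈ range r, a j = 1 ∧
        ‖∑ j ∈ range r, a j • g j - (n : ℝ) • v‖ ≤ 1 / 4} ?_ ?_) (1 / 4 / (n + 1))
        (by positivity)).imp fun v h => ⟨h.2, h.1⟩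
    · rintro v ⟨a, a1, a2⟩ w ⟨b, b1, b2⟩ s t hs ht hst
      refine ⟨fun j => s * a j + t * b j, fun j hj => by simp [a1 j hj, b1 j hj], ?_⟩
      filter_upwards [a2, b2] with r p q
      refine ⟨by simp [p.1, q.1], by simp [sum_add_distrib, ← mul_sum, p.2.1, q.2.1, hst], ?_⟩
      have e : ∑ j ∈ range r, (s * a j + t * b j) • g j - (n : ℝ) • (s • v + t • w) =
          s • (∑ j ∈ range r, a j • g j - (n : ℝ) • v) +
            t • (∑ j ∈ range r, b j • g j - (n : ℝ) • w) := by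
        simp only [add_smul, mul_smul, sum_add_distrib, ← smul_sum]
        module
      rw [e]
      refine (norm_add_le _ _).trans ?_
      rw [norm_smul, norm_smul, Real.norm_of_nonneg hs, Real.norm_of_nonneg ht]
      have := mul_le_mul_of_nonneg_left p.2.2 hs
      have := mul_le_mul_of_nonneg_left q.2.2 ht
      linarith
    · refine mem_of_superset (hU (eventually_ge_atTop (max N N'))) fun m hm => ?_
      have hm : max N N' ≤ m := hm
      refine ⟨fun j => if j = m then 1 else 0, fun j hj => if_neg (by omega), ?_⟩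
      filter_upwards [eventually_gt_atTop m] with r hr
      refine ⟨if_neg hr.ne', by simp [hr], ?_⟩
      simpa [ite_smul, hr] using (hκ m (by omega)).2
  obtain ⟨v, hv, a, -, ha⟩ := key 0
  obtain ⟨r₀, ha⟩ := eventually_atTop.1 ha
  obtain ⟨w, hw, b, hb0, hb⟩ := key r₀
  obtain ⟨r, hb, hr⟩ := (hb.and (eventually_ge_atTop r₀)).exists
  have h1 := hg r (fun j => a j - b j) (fun j => if j < r₀ then 1 else -1)
    fun j => by split_ifs <;> simp
  have h2 : ∑ j ∈ range r, (if j < r₀ then (1 : ℝ) else -1) * (a j - b j) = 2 := by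
    rw [sum_congr rfl (g := fun j => a j + b j) fun j _ => ?_, sum_add_distrib, (ha r hr).2.1,
      hb.2.1, one_add_one_eq_two]
    split_ifs with h
    · simp [hb0 j h]
    · simp [(ha j (not_lt.1 h)).1]
  have e : ∑ j ∈ range r, (a j - b j) • g j = (∑ j ∈ range r, a j • g j - (n : ℝ) • v) -
      (∑ j ∈ range r, b j • g j - (n : ℝ) • w) + (n : ℝ) • (v - w) := by
    simp only [sub_smul, sum_sub_distrib]
    module
  rw [h2, e] at h1
  have h3 := norm_add_le ((∑ j ∈ range r, a j • g j - (n : ℝ) • v) -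
      (∑ j ∈ range r, b j • g j - (n : ℝ) • w)) ((n : ℝ) • (v - w))
  have h4 := norm_sub_le (∑ j ∈ range r, a j • g j - (n : ℝ) • v)
      (∑ j ∈ range r, b j • g j - (n : ℝ) • w)
  have h5 := dist_triangle_left v w z
  rw [norm_smul, Real.norm_natCast, ← dist_eq_norm v w] at h3
  have h6 : (n : ℝ) * dist v w ≤ n * (1 / 2 / (n + 1)) :=
    mul_le_mul_of_nonneg_left (by
      have : (1 : ℝ) / 2 / (n + 1) = 1 / 4 / (n + 1) + 1 / 4 / (n + 1) := by ring
      linarith) (Nat.cast_nonneg n)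
  have h7 : (n : ℝ) * (1 / 2 / (n + 1)) < 1 / 2 := by
    rw [← mul_div_assoc, div_lt_iff₀ (by positivity)]
    linarith
  linarith [(ha r hr).2.2, hb.2.2]

theorem wnull (h : ℕ → X) (hh : ∀ N, ∃ M, ∀ S : Finset ℕ, S.card = N → (∀ k ∈ S, M ≤ k) →
    ‖∑ k ∈ S, h k‖ ≤ 3) : IsCompact (toWeakSpace ℝ X '' insert 0 (Set.range h)) := by
  have a : ∀ (φ : X →L[ℝ] ℝ) (δ : ℝ), 0 < δ → ∀ᶠ k in atTop, φ (h k) < δ := fun φ δ hδ => by
    rw [← Nat.cofinite_eq_atTop, eventually_cofinite]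
    by_contra hi
    obtain ⟨N, hN⟩ := exists_nat_gt (‖φ‖ * 3 / δ)
    obtain ⟨M, hM⟩ := hh N
    obtain ⟨S, hS, hc⟩ := (Set.Infinite.sdiff hi (Set.finite_lt_nat M)).exists_subset_card_eq N
    have b := hM S hc fun k hk => not_lt.1 (hS hk).2
    have c : S.card • δ ≤ ∑ k ∈ S, φ (h k) := card_nsmul_le_sum _ _ _ fun k hk => not_lt.1 (hS hk).1
    rw [← map_sum, hc, nsmul_eq_mul] at c
    have d := (le_abs_self _).trans (φ.le_opNorm (∑ k ∈ S, h k))
    have := mul_le_mul_of_nonneg_left b (norm_nonneg φ)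
    rw [div_lt_iff₀ hδ] at hN
    linarith
  have b : Tendsto (fun k => toWeakSpace ℝ X (h k)) atTop (𝓝 (toWeakSpace ℝ X 0)) := by
    have : IsInducing fun (v : WeakSpace ℝ X) (φ : X →L[ℝ] ℝ) => (topDualPairing ℝ X).flip v φ :=
      ⟨rfl⟩
    refine this.tendsto_nhds_iff.2 (tendsto_pi_nhds.2 fun φ => ?_)
    show Tendsto (fun k => φ (h k)) _ (𝓝 (φ 0))
    rw [map_zero]
    refine tendsto_order.2 ⟨fun δ hδ => (a (-φ) (-δ) (neg_pos.2 hδ)).mono fun k hk => ?_, a φ⟩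
    simpa using hk
  rw [Set.image_insert_eq, ← Set.range_comp]
  exact b.isCompact_insert_range

theorem coe_sum {Ω ι : Type} [MeasurableSpace Ω] {μ : Measure Ω} (S : Finset ι) (a : ι → ℝ)
    (F : ι → Lp X 1 μ) (G : ι → Ω → X) (h : ∀ i, F i =ᵐ[μ] G i) :
    (∑ i ∈ S, a i • F i : Lp X 1 μ) =ᵐ[μ] fun ω => ∑ i ∈ S, a i • G i ω := by
  classical
  induction S using Finset.induction_on with
  | empty => simpa [Pi.zero_def] using Lp.coeFn_zero X 1 μ
  | insert i S hi ih =>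
    rw [sum_insert hi]
    filter_upwards [Lp.coeFn_add (a i • F i) (∑ i ∈ S, a i • F i), Lp.coeFn_smul (a i) (F i), ih,
      h i] with ω p q r s
    rw [p, Pi.add_apply, q, r, sum_insert hi, Pi.smul_apply, s]

noncomputable def ν : Measure Bool := (PMF.uniformOfFintype Bool).toMeasure

instance : IsProbabilityMeasure ν := PMF.toMeasure.isProbabilityMeasure _

noncomputable def μ : Measure (ℕ × ℕ → Bool) := Measure.infinitePi fun _ => ν

instance : IsProbabilityMeasure μ := by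
  unfold μ
  infer_instance

theorem coll {k k' : ℕ} (h : k ≠ k') (M : ℕ) :
    μ {ω | ∀ j < M, ω (k, j) = ω (k', j)} ≤ 2⁻¹ ^ M := by
  have a : ∀ b, ν {b} = 2⁻¹ := fun b => by
    simp [ν]
  have : {ω : ℕ × ℕ → Bool | ∀ j < M, ω (k, j) = ω (k', j)} ⊆ ⋃ S ∈ (range M).powerset,
      Set.pi (({k, k'} ×ˢ range M : Finset (ℕ × ℕ)) : Set (ℕ × ℕ))
        fun p => {decide (p.2 ∈ S)} := fun ω hω => by
    refine Set.mem_iUnion₂.2 ⟨(range M).filter fun j => ω (k, j) = true,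
      mem_powerset.2 (filter_subset _ _), fun p hp => ?_⟩
    obtain ⟨i, j⟩ := p
    simp only [coe_product, coe_insert, coe_singleton, coe_range, Set.mem_prod, Set.mem_insert_iff,
      Set.mem_singleton_iff, Set.mem_Iio] at hp
    have : ω (i, j) = ω (k, j) := by
      rcases hp.1 with rfl | rfl
      · rfl
      · exact (hω j hp.2).symm
    simp [hp.2, this]
  refine (measure_mono this).trans ((measure_biUnion_finset_le _ _).trans (le_of_eq ?_))
  rw [sum_congr rfl (g := fun _ => 2⁻¹ ^ (2 * M)) fun S _ => ?_]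
  · rw [sum_const, card_powerset, card_range, two_mul, pow_add, nsmul_eq_mul, ← mul_assoc,
      Nat.cast_pow, ← mul_pow, Nat.cast_ofNat, ENNReal.mul_inv_cancel (by simp) (by simp), one_pow,
      one_mul]
  · rw [μ, Measure.infinitePi_pi _ fun _ _ => .of_discrete]
    simp [a, card_pair h]

end Pool.Agent.H.MP_f6c0ac
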