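import Pool.Agent.H.MP_f6c0ac.D

namespace Pool.Agent.H.MP_f6c0ac

open Finset Filter Topology MeasureTheory
open scoped Pointwise

def node (u : ℕ → Bool) (m : ℕ) : I := List.ofFn fun j : Fin m => u j

theorem node_len (u : ℕ → Bool) (m : ℕ) : (node u m).length = m := by simp [node]

theorem node_get (u : ℕ → Bool) {m j : ℕ} (h : j < m) : (node u m).getD j false = u j := by
  simp [node, h]

variable {X : Type} [NormedAddCommGroup X] [NormedSpace ℝ X]
  {x : I → X} {ev : (I →₀ ℝ) →ₗ[ℝ] (X →L[ℝ] ℝ)} (h1 : ∀ w i, ev w (x i) = w i)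
  (h3 : ∀ v r, 0 ≤ r → (‖v‖ ≤ r ↔ ∀ w, Ad w → |ev w v| ≤ r))

include h1 h3

theorem p0 (i : I) : ‖x i‖ ≤ 1 := (h3 _ 1 zero_le_one).2 fun w hw => by
  rw [h1]
  exact hw.bd i

theorem p1 (u : ℕ → Bool) (r : ℕ) (a s : ℕ → ℝ) (hs : ∀ j, |s j| ≤ 1) :
    1 / 2 * ∑ j ∈ range r, s j * a j ≤ ‖∑ j ∈ range r, a j • x (node u j)‖ := by
  have e : ∀ j i, Finsupp.single (node u j) (s j) i ≠ 0 → i = node u j := fun j i hi =>
    by_contra fun e => hi (Finsupp.single_eq_of_ne e)
  have := (chain (fun j => Finsupp.single (node u j) (s j)) id u monotone_id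
    (fun j => .base _ _ (hs j)) (fun j i hi => by
      rw [e j i hi]
      exact ⟨(node_len u j).ge, fun _ h => node_get u h⟩)
    (fun j i hi => by
      rw [e j i hi, node_len]
      exact Nat.lt_succ_self j) r 0).1
  refine le_trans (le_of_eq ?_) ((le_abs_self _).trans (ev_le h3 this _))
  rw [map_sum, mul_sum]
  refine sum_congr rfl fun j hj => ?_
  rw [map_smul, h1, Finsupp.coe_finsetSum, Finset.sum_apply, sum_eq_single_of_mem j hj]
  · simp only [zero_add, Finsupp.smul_apply, Finsupp.single_eq_same, smul_eq_mul]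
    ring
  · intro k _ hk
    rw [zero_add, Finsupp.smul_apply, Finsupp.single_eq_of_ne fun h => hk ?_, smul_zero]
    simpa [node_len] using (congrArg List.length h).symm

theorem p2 (M : ℕ) (S : Finset ℕ) (i : ℕ → I) (ha : ∀ k ∈ S, M ≤ (i k).length)
    (hb : ∀ k ∈ S, ∀ k' ∈ S, (∀ j < M, (i k).getD j false = (i k').getD j false) → k = k') :
    ‖∑ k ∈ S, x (i k)‖ ≤ 2 := by
  let φ : (I →₀ ℝ) →ₗ[ℝ] ℝ :=
    { toFun := fun w => ∑ k ∈ S, w (i k)
      map_add' := fun a b => by simp [sum_add_distrib]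
      map_smul' := fun a b => by simp [mul_sum] }
  refine (h3 _ 2 zero_le_two).2 fun w hw => ?_
  have := key φ M 1 zero_le_one (fun g hg => sum_eq_zero fun k hk =>
    by_contra fun e => absurd (hg _ e) (not_lt.2 (ha k hk))) (fun g c a b => ?_) hw
  · simp only [map_sum, h1]
    exact this.trans (by norm_num)
  · show |∑ k ∈ S, g (i k)| ≤ 1
    by_cases e : ∃ k ∈ S, g (i k) ≠ 0
    · obtain ⟨k, hk, e⟩ := e
      rw [sum_eq_single_of_mem k hk fun k' hk' n => by_contra fun e' => n (hb k' hk' k hk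
        fun j hj => ((b _ e').2 j hj).trans ((b _ e).2 j hj).symm)]
      exact a.bd _
    · push Not at e
      simp [sum_eq_zero e]

theorem notL1 : ¬ ∃ K : Set (Lp X 1 μ), IsCompact (toWeakSpace ℝ (Lp X 1 μ) '' K) ∧
    ∀ L : Set (Lp X 1 μ), IsCompact (toWeakSpace ℝ (Lp X 1 μ) '' L) →
      ∀ ε : ℝ, 0 < ε → ∃ n : ℕ, L ⊆ (n : ℝ) • K + Metric.closedBall (0 : Lp X 1 μ) ε := by
  classical
  rintro ⟨K, hK, H⟩
  let G : ℕ → ℕ → (ℕ × ℕ → Bool) → X := fun k m ω => x (node (fun j => ω (k, j)) m)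
  have hG : ∀ k m, MemLp (G k m) 1 μ := fun k m =>
    .of_bound ((StronglyMeasurable.of_discrete (f := fun c : Fin m → Bool =>
      x (List.ofFn c))).comp_measurable (g := fun (ω : ℕ × ℕ → Bool) (j : Fin m) => ω (k, j))
        (by fun_prop)).aestronglyMeasurable 1 (.of_forall fun ω => p0 h1 h3 _)
  let g : ℕ → ℕ → Lp X 1 μ := fun k m => (hG k m).toLp _
  have hg : ∀ k m, g k m =ᵐ[μ] G k m := fun k m => (hG k m).coeFn_toLp
  choose m hm hm' using fun k => escape (g k) (fun r a s hs => by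
    rw [L1.norm_eq_integral_norm]
    refine le_trans (le_of_eq (by simp)) (integral_mono_ae (μ := μ)
      (f := fun _ => 1 / 2 * ∑ j ∈ range r, s j * a j) (integrable_const _)
      (L1.integrable_coeFn _).norm ?_)
    filter_upwards [coe_sum (range r) a (g k) (G k) (hg k)] with ω h
    rw [h]
    exact p1 h1 h3 _ r a s hs) hK k k
  refine (H _ (wnull (fun k => g k (m k)) fun N => ?_) (1 / 4) (by norm_num)).elim
    fun n hn => hm' n (hn (Or.inr ⟨n, rfl⟩))
  obtain ⟨M, hM⟩ := exists_pow_lt_of_lt_one (by positivity : (0 : ℝ) < 1 / (N ^ 3 + 1))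
    (by norm_num : (2⁻¹ : ℝ) < 1)
  refine ⟨M, fun S hS hS' => ?_⟩
  let T := toMeasurable μ (⋃ p ∈ S.offDiag, {ω : ℕ × ℕ → Bool | ∀ j < M, ω (p.1, j) = ω (p.2, j)})
  have hT : μ.real T ≤ N ^ 2 * 2⁻¹ ^ M := by
    rw [measureReal_def, measure_toMeasurable, ← measureReal_def]
    refine (measureReal_biUnion_finset_le _ _).trans ((sum_le_card_nsmul _ _ (2⁻¹ ^ M)
      fun p hp => ?_).trans ?_)
    · refine (ENNReal.toReal_mono (by simp) (coll (mem_offDiag.1 hp).2.2 M)).trans (by simp)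
    · rw [nsmul_eq_mul, offDiag_card, hS]
      gcongr
      exact_mod_cast (Nat.sub_le _ _).trans (sq N).ge
  have hi : Integrable (T.indicator fun _ => (N : ℝ)) μ :=
    (integrable_const _).indicator (measurableSet_toMeasurable _ _)
  rw [L1.norm_eq_integral_norm]
  refine (integral_mono_ae (g := fun ω => 2 + T.indicator (fun _ => (N : ℝ)) ω)
    (L1.integrable_coeFn _).norm ((integrable_const _).add hi) ?_).trans ?_
  · have := coe_sum S (fun _ => 1) (fun k => g k (m k)) (fun k => G k (m k)) fun k => hg k _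
    simp only [one_smul] at this
    filter_upwards [this] with ω h
    rw [h]
    by_cases a : ω ∈ T
    · rw [Set.indicator_of_mem a]
      refine (norm_sum_le _ _).trans ((sum_le_card_nsmul _ _ 1 fun k _ => p0 h1 h3 _).trans ?_)
      simp [hS]
    · rw [Set.indicator_of_notMem a, add_zero]
      refine p2 h1 h3 M S (fun k => node (fun j => ω (k, j)) (m k)) (fun k hk => ?_)
        fun k hk k' hk' e => by_contra fun n => a (subset_toMeasurable _ _
          (Set.mem_iUnion₂.2 ⟨(k, k'), mem_offDiag.2 ⟨hk, hk', n⟩, fun j hj => ?_⟩))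
      · rw [node_len]
        exact (hS' k hk).trans (hm k)
      · have := e j hj
        rwa [node_get _ (hj.trans_le ((hS' k hk).trans (hm k))),
          node_get _ (hj.trans_le ((hS' k' hk').trans (hm k')))] at this
  · rw [integral_add (integrable_const _) hi,
      integral_indicator_const _ (measurableSet_toMeasurable _ _)]
    simp only [integral_const, probReal_univ, smul_eq_mul, one_mul]
    have := mul_le_mul_of_nonneg_right hT (Nat.cast_nonneg (α := ℝ) N)
    rw [lt_div_iff₀ (by positivity)] at hM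
    have : (0 : ℝ) < 2⁻¹ ^ M := by positivity
    nlinarith

end Pool.Agent.H.MP_f6c0ac
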